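import Pool.Agent.Helper51.PP.GoalsA2b

/-!
# Project PP, packet PP-A2-MOD: sums over moduli
-/

namespace Pool.Agent.Helper19.PP

open Finset
open Pool.Agent.Helper17.PP (Sys)
open Pool.Agent.Helper51.PP

/-- Packet PP-A2-MOD. -/
theorem a2_mod : A2_MOD := by
  intro p B B₀ k U Λ C _ _ _ _ _ _ S K₀ hK A hA
  classical
  refine ⟨⌈2 * Real.exp (A * K₀) + A * K₀⌉₊, fun i => ?_⟩
  set K := ⌈2 * Real.exp (A * K₀) + A * K₀⌉₊ with hKd
  have hKle : 2 * Real.exp (A * K₀) + A * K₀ ≤ K := Nat.le_ceil _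
  have hAK : 0 ≤ A * K₀ := mul_nonneg hA (Nat.cast_nonneg _)
  have hN : ∀ q, (0 : ℝ) < S.N q := fun q => by
    have := S.two_le q
    exact_mod_cast (by omega : 0 < S.N q)
  -- the sum of the reciprocals of the norms
  have hsum : ∑ q ∈ S.upto (2 ^ (i + 1)), (1 : ℝ) / S.N q ≤
      K₀ * (1 + Real.log ((i : ℝ) + 1)) := by
    have hfl : ⌊(2 : ℝ) ^ (i + 1)⌋₊ = 2 ^ (i + 1) := by
      have : ((2 : ℝ) ^ (i + 1)) = ((2 ^ (i + 1) : ℕ) : ℝ) := by push_cast; rfl
      rw [this, Nat.floor_natCast]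
    have hsub : S.upto (2 ^ (i + 1)) ⊆ (range (i + 1)).biUnion fun j => S.blk (j + 1) := by
      intro q hq
      have hq' : S.N q ≤ 2 ^ (i + 1) := by
        unfold Sys.upto at hq
        rw [Set.Finite.mem_toFinset, Set.mem_setOf_eq, hfl] at hq
        exact hq
      have h2 := S.two_le q
      have hb1 : 1 ≤ S.bl q := by
        unfold Sys.bl
        exact Nat.log_pos (by norm_num) h2
      have hb2 : S.bl q ≤ i + 1 := by
        unfold Sys.bl
        calc Nat.log 2 (S.N q) ≤ Nat.log 2 (2 ^ (i + 1)) := Nat.log_mono_right hq'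
          _ = i + 1 := Nat.log_pow (by norm_num) _
      rw [mem_biUnion]
      refine ⟨S.bl q - 1, by rw [mem_range]; omega, ?_⟩
      have h3 : S.bl q - 1 + 1 = S.bl q := by omega
      rw [h3]
      unfold Sys.blk
      rw [mem_filter, Set.Finite.mem_toFinset, Set.mem_setOf_eq]
      refine ⟨?_, rfl⟩
      unfold Sys.bl
      exact (Nat.lt_pow_succ_log_self (by norm_num) _).le
    calc ∑ q ∈ S.upto (2 ^ (i + 1)), (1 : ℝ) / S.N q
        ≤ ∑ q ∈ (range (i + 1)).biUnion fun j => S.blk (j + 1), (1 : ℝ) / S.N q :=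
          sum_le_sum_of_subset_of_nonneg hsub fun q _ _ => (div_pos one_pos (hN q)).le
      _ ≤ ∑ j ∈ range (i + 1), ∑ q ∈ S.blk (j + 1), (1 : ℝ) / S.N q := by
          refine le_of_eq (sum_biUnion ?_)
          intro a _ b _ hab
          refine disjoint_left.2 fun q h1 h2 => hab ?_
          unfold Sys.blk at h1 h2
          have e1 := (mem_filter.1 h1).2
          have e2 := (mem_filter.1 h2).2
          omega
      _ ≤ ∑ j ∈ range (i + 1), (K₀ : ℝ) / ((j + 1 : ℕ) : ℝ) :=
          sum_le_sum fun j _ => hK (j + 1) (by omega)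
      _ = K₀ * (harmonic (i + 1) : ℝ) := by
          unfold harmonic
          push_cast
          rw [mul_sum]
          refine sum_congr rfl fun j _ => ?_
          rw [div_eq_mul_inv]
      _ ≤ _ := by
          refine mul_le_mul_of_nonneg_left ?_ (Nat.cast_nonneg _)
          have := harmonic_le_one_add_log (i + 1)
          push_cast at this
          exact this
  -- the sum over the moduli
  have hterm : ∀ D ∈ S.mods i, A ^ D.card ≤ 2 ^ (i + 1) * ∏ q ∈ D, (A / S.N q) := by
    intro D hD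
    unfold Sys.mods at hD
    have hlog := (mem_filter.1 hD).2
    have hpos : (0 : ℝ) < S.nm D := by
      unfold Sys.nm
      push_cast
      exact prod_pos fun q _ => hN q
    have hlt : S.nm D < 2 ^ (i + 1) := by
      rw [← hlog]
      exact Nat.lt_pow_succ_log_self (by norm_num) _
    have hle : (S.nm D : ℝ) ≤ 2 ^ (i + 1) := by exact_mod_cast hlt.le
    have e1 : ∏ q ∈ D, (A / (S.N q : ℝ)) = A ^ D.card / S.nm D := by
      rw [prod_div_distrib, prod_const]
      unfold Sys.nm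
      push_cast
      rfl
    rw [e1, mul_div_assoc', le_div_iff₀ hpos, mul_comm]
    exact mul_le_mul_of_nonneg_right hle (pow_nonneg hA _)
  have h1 : ∑ D ∈ S.mods i, A ^ D.card ≤
      2 ^ (i + 1) * Real.exp (A * (K₀ * (1 + Real.log ((i : ℝ) + 1)))) := by
    calc ∑ D ∈ S.mods i, A ^ D.card ≤ ∑ D ∈ S.mods i, 2 ^ (i + 1) * ∏ q ∈ D, (A / S.N q) :=
          sum_le_sum hterm
      _ = 2 ^ (i + 1) * ∑ D ∈ S.mods i, ∏ q ∈ D, (A / S.N q) := by rw [mul_sum]
      _ ≤ 2 ^ (i + 1) * ∑ D ∈ (S.upto (2 ^ (i + 1))).powerset, ∏ q ∈ D, (A / S.N q) := by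
          refine mul_le_mul_of_nonneg_left ?_ (by positivity)
          refine sum_le_sum_of_subset_of_nonneg ?_ fun D _ _ =>
            prod_nonneg fun q _ => div_nonneg hA (hN q).le
          unfold Sys.mods
          exact filter_subset _ _
      _ = 2 ^ (i + 1) * ∏ q ∈ S.upto (2 ^ (i + 1)), (1 + A / S.N q) := by rw [prod_one_add]
      _ ≤ 2 ^ (i + 1) * Real.exp (A * ∑ q ∈ S.upto (2 ^ (i + 1)), (1 : ℝ) / S.N q) := by
          refine mul_le_mul_of_nonneg_left ?_ (by positivity)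
          rw [mul_sum, Real.exp_sum]
          refine prod_le_prod (fun q _ => ?_) fun q _ => ?_
          · have := div_nonneg hA (hN q).le
            linarith
          · have := Real.add_one_le_exp (A * (1 / S.N q))
            rw [mul_one_div] at this ⊢
            linarith
      _ ≤ _ := by
          refine mul_le_mul_of_nonneg_left (Real.exp_le_exp.2 ?_) (by positivity)
          exact mul_le_mul_of_nonneg_left hsum hA
  refine h1.trans ?_
  have hi1 : (1 : ℝ) ≤ (i : ℝ) + 1 := by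
    have : (0 : ℝ) ≤ i := Nat.cast_nonneg _
    linarith
  have h2 : Real.exp (A * (K₀ * (1 + Real.log ((i : ℝ) + 1)))) ≤
      Real.exp (A * K₀) * ((i : ℝ) + 1) ^ K := by
    have e1 : A * (K₀ * (1 + Real.log ((i : ℝ) + 1))) =
        A * K₀ + Real.log ((i : ℝ) + 1) * (A * K₀) := by ring
    rw [e1, Real.exp_add]
    refine mul_le_mul_of_nonneg_left ?_ (Real.exp_pos _).le
    rw [← Real.rpow_natCast, Real.rpow_def_of_pos (by linarith)]
    refine Real.exp_le_exp.2 (mul_le_mul_of_nonneg_left ?_ (Real.log_nonneg hi1))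
    have := Real.exp_pos (A * K₀)
    linarith
  have h3 : 2 * Real.exp (A * K₀) ≤ K := by linarith
  calc (2 : ℝ) ^ (i + 1) * Real.exp (A * (K₀ * (1 + Real.log ((i : ℝ) + 1))))
      ≤ 2 ^ (i + 1) * (Real.exp (A * K₀) * ((i : ℝ) + 1) ^ K) :=
        mul_le_mul_of_nonneg_left h2 (by positivity)
    _ = 2 * Real.exp (A * K₀) * (2 ^ i * ((i : ℝ) + 1) ^ K) := by ring
    _ ≤ K * (2 ^ i * ((i : ℝ) + 1) ^ K) := mul_le_mul_of_nonneg_right h3 (by positivity)
    _ = _ := by ring

end Pool.Agent.Helper19.PP
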