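import Pool.Agent.Helper76.PP.Goals3
import Pool.Agent.Helper42.RD.VAL

/-!
# Project PP (MP_fc6b1e_nt): packet B_LOG, the local logarithms
-/

set_option autoImplicit false

namespace Pool.Agent.Helper19.PP

open NumberField Polynomial Module IsDedekindDomain
open Pool.Agent.Helper51.RP Pool.Agent.Helper42.RD Pool.Agent.Helper42.PP
open Pool.Agent.Helper76.PP

section res

variable {K M : Type} [Field K] [NumberField K] [Field M] [NumberField M] [Algebra K M]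

theorem above_mem {W : HeightOneSpectrum (𝓞 M)} {v : HeightOneSpectrum (𝓞 K)} (h : Above W v)
    (x : 𝓞 K) : algebraMap (𝓞 K) (𝓞 M) x ∈ W.asIdeal ↔ x ∈ v.asIdeal := by
  rw [← Ideal.mem_comap]
  unfold Above at h
  rw [h]

/-- If the norms are equal the residue classes modulo `W` come from `𝓞 K`. -/
theorem above_lift {W : HeightOneSpectrum (𝓞 M)} {v : HeightOneSpectrum (𝓞 K)} (h : Above W v)
    (hN : Ideal.absNorm W.asIdeal = Ideal.absNorm v.asIdeal) (c₁ : 𝓞 M) :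
    ∃ c : 𝓞 K, algebraMap (𝓞 K) (𝓞 M) c - c₁ ∈ W.asIdeal := by
  have hle : v.asIdeal ≤ W.asIdeal.comap (algebraMap (𝓞 K) (𝓞 M)) := (show _ = _ from h).ge
  let f := Ideal.quotientMap W.asIdeal (algebraMap (𝓞 K) (𝓞 M)) hle
  have hinj : Function.Injective f := by
    rw [injective_iff_map_eq_zero]
    intro a ha
    obtain ⟨x, rfl⟩ := Ideal.Quotient.mk_surjective a
    have h1 : Ideal.Quotient.mk W.asIdeal (algebraMap (𝓞 K) (𝓞 M) x) = 0 := by
      rw [← Ideal.quotientMap_mk (H := hle)]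
      exact ha
    rw [Ideal.Quotient.eq_zero_iff_mem, above_mem h] at h1
    exact Ideal.Quotient.eq_zero_iff_mem.2 h1
  have hfin : Finite (𝓞 M ⧸ W.asIdeal) := by
    have : Field (𝓞 M ⧸ W.asIdeal) := Ideal.Quotient.field W.asIdeal
    infer_instance
  have hcard : Nat.card (𝓞 M ⧸ W.asIdeal) ≤ Nat.card (𝓞 K ⧸ v.asIdeal) := by
    have h2 := hN
    rw [Ideal.absNorm_apply, Submodule.cardQuot_apply, Ideal.absNorm_apply,
      Submodule.cardQuot_apply] at h2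
    exact h2.le
  have hb := hinj.bijective_of_nat_card_le hcard
  obtain ⟨a, ha⟩ := hb.2 (Ideal.Quotient.mk W.asIdeal c₁)
  obtain ⟨c, rfl⟩ := Ideal.Quotient.mk_surjective a
  refine ⟨c, ?_⟩
  rw [← Ideal.Quotient.eq_zero_iff_mem, map_sub, sub_eq_zero, ← ha]
  exact (Ideal.quotientMap_mk (H := hle)).symm

end res

/-- **B_LOG.** -/
theorem b_log (h1 : Pool.Agent.Helper42.PP.P_VIS) : Pool.Agent.Helper76.PP.B_LOG := by
  intro p hpF K M K₁ M₁ _ _ _ _ _ _ _ _ _ _ _ _ _ _ _ _ _ _ ε hT δ P B v hv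
  have hp : p.Prime := hpF.out
  have hNZ : NeZero p := ⟨hp.ne_zero⟩
  have hv' : v ∈ Spl M₁ B.S := hv
  obtain ⟨hWv, hWQ, hWw, hWf⟩ := B.Wa v hv'
  set W := B.W v with hW
  have hvS : v ∉ B.S := hv'.1
  have hvp1 : v.valuation K (p : K) = 1 := by
    by_contra hne
    have hle : v.valuation K (p : K) ≤ 1 := by
      have h2 : v.valuation K ((algebraMap (𝓞 K) K) (p : 𝓞 K)) ≤ 1 :=
        v.valuation_le_one (K := K) (p : 𝓞 K)
      rwa [map_natCast] at h2
    exact hvS (B.abp v (lt_of_le_of_ne hle hne))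
  obtain ⟨hV1, -, hV3⟩ := h1 p K M K₁ M₁ ε hT v hvp1
  obtain ⟨hNW, -, hVQ⟩ := hV1 W hWv hWf
  obtain ⟨hQf, -, hQv⟩ := hVQ (B.Q v) hWQ
  have hNv : p ∣ Ideal.absNorm v.asIdeal - 1 := (hV3 (B.Q v) hQv hQf).2
  have hth : Hom (B.th v) := B.thh v hv'
  have hthk := B.thk v hv'
  -- uniformizer
  set ϖ : M₁ := algebraMap K M₁ (B.vp v) with hϖ
  have hϖ1 : ordv W ϖ = 1 := by
    rw [hϖ, B.unr v hvS W hWv, B.vpo v hv']
  have hϖ0 : ϖ ≠ 0 := by
    intro h0
    rw [h0] at hϖ1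
    unfold ordv at hϖ1
    rw [map_zero, WithZero.log_zero] at hϖ1
    norm_num at hϖ1
  -- (1)
  have hA : ∀ x : M₁ˣ, W.valuation M₁ ((x : M₁) - 1) < 1 → B.th v x = 0 := by
    intro x hx
    rw [hthk]
    exact ⟨0, by rw [pow_zero, mul_one]; exact locPow_of_sub W hx⟩
  -- (3)
  have hC : ∀ x : M₁ˣ, (p : ℤ) ∣ ordv W (x : M₁) → (B.th v x = 0 ↔ LocPow p W (x : M₁)) := by
    intro x hx
    rw [hthk]
    constructor
    · rintro ⟨i, y, hy⟩
      have hv1 := val_eq_one_of_sub W hy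
      have hy0 : y ≠ 0 := by
        rintro rfl
        rw [zero_pow hp.ne_zero, mul_zero, map_zero] at hv1
        exact zero_ne_one hv1
      have hne : (x : M₁) * ϖ ^ i * y ^ p ≠ 0 :=
        mul_ne_zero (mul_ne_zero x.ne_zero (pow_ne_zero _ hϖ0)) (pow_ne_zero _ hy0)
      have ho := (ordv_eq_zero_iff W hne).2 hv1
      rw [ordv_mul W (mul_ne_zero x.ne_zero (pow_ne_zero _ hϖ0)) (pow_ne_zero _ hy0),
        ordv_mul W x.ne_zero (pow_ne_zero _ hϖ0), ordv_pow, ordv_pow, hϖ1] at ho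
      have hi : (p : ℤ) ∣ (i : ℤ) := by
        obtain ⟨t, ht⟩ := hx
        refine ⟨-t - ordv W y, ?_⟩
        rw [ht] at ho
        linarith
      obtain ⟨k, hk⟩ := Int.natCast_dvd_natCast.1 hi
      refine ⟨ϖ ^ k * y, ?_⟩
      have e : (x : M₁) * (ϖ ^ k * y) ^ p = (x : M₁) * ϖ ^ i * y ^ p := by
        rw [hk, mul_pow, ← pow_mul, mul_comm k p]; ring
      rw [e]
      exact hy
    · intro h
      exact ⟨0, by rw [pow_zero, mul_one]; exact h⟩
  refine ⟨hA, ?_, hC⟩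
  -- (2)
  obtain ⟨g, hg, -, hg2⟩ := exists_gen v hp hNv
  have hcoe : ∀ c : 𝓞 K, ((algebraMap (𝓞 K) (𝓞 M₁) c : 𝓞 M₁) : M₁) = algebraMap K M₁ (c : K) :=
    fun c => rfl
  have hgW : algebraMap (𝓞 K) (𝓞 M₁) g ∉ W.asIdeal := fun h => hg ((above_mem hWv g).1 h)
  have hvg : W.valuation M₁ (algebraMap K M₁ (g : K)) = 1 := by
    rw [← hcoe]
    exact val_of_notMem W hgW
  have hgne : (algebraMap K M₁ (g : K)) ≠ 0 := by
    intro h0
    rw [h0, map_zero] at hvg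
    exact zero_ne_one hvg
  set gu : M₁ˣ := Units.mk0 (algebraMap K M₁ (g : K)) hgne with hgu
  have hth0 : B.th v gu ≠ 0 := by
    intro h0
    have hord : ordv W (gu : M₁) = 0 := (ordv_eq_zero_iff W hgne).2 hvg
    have h3 := (hC gu (by rw [hord]; exact dvd_zero _)).1 h0
    obtain ⟨y, hy⟩ := h3
    have hv1 := val_eq_one_of_sub W hy
    have hy0 : y ≠ 0 := by
      rintro rfl
      rw [zero_pow hp.ne_zero, mul_zero, map_zero] at hv1
      exact zero_ne_one hv1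
    have hvy : W.valuation M₁ y = 1 := by
      rw [map_mul, map_pow] at hv1
      have e : W.valuation M₁ (gu : M₁) = 1 := hvg
      rw [e, one_mul] at hv1
      exact (pow_eq_one_iff_of_nonneg zero_le hp.ne_zero).1 hv1
    obtain ⟨c₁, hc₁, hc₁y⟩ := exists_int_close W hvy
    obtain ⟨c, hc⟩ := above_lift hWv hNW c₁
    have h4 := val_div_of_sub_mem W hc₁ hc
    have hvc₁ := val_of_notMem W hc₁
    have hc₁0 : (c₁ : M₁) ≠ 0 := by
      intro h0
      rw [h0, map_zero] at hvc₁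
      exact zero_ne_one hvc₁
    have h5 := val_mul_sub W hy (val_pow_sub W (val_mul_sub W hc₁y h4) p)
    have e2 : (gu : M₁) * y ^ p * ((c₁ : M₁) / y * (((algebraMap (𝓞 K) (𝓞 M₁) c : 𝓞 M₁) : M₁) /
        c₁)) ^ p - 1 = ((algebraMap (𝓞 K) (𝓞 M₁) (g * c ^ p - 1) : 𝓞 M₁) : M₁) := by
      rw [mul_pow, div_pow, div_pow]
      have e3 : ((algebraMap (𝓞 K) (𝓞 M₁) (g * c ^ p - 1) : 𝓞 M₁) : M₁) =
          (gu : M₁) * ((algebraMap (𝓞 K) (𝓞 M₁) c : 𝓞 M₁) : M₁) ^ p - 1 := by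
        rw [map_sub, map_mul, map_pow, map_one]
        push_cast
        rfl
      rw [e3]
      field_simp
    rw [e2] at h5
    have h6 : algebraMap (𝓞 K) (𝓞 M₁) (g * c ^ p - 1) ∈ W.asIdeal :=
      (W.valuation_lt_one_iff_mem (K := M₁) _).1 h5
    rw [above_mem hWv] at h6
    have h7 := hg2 1 c (by rwa [pow_one])
    exact hp.one_lt.ne' (Nat.dvd_one.1 h7)
  have hpow : ∀ n : ℕ, B.th v (gu ^ n) = (n : ZMod p) * B.th v gu := by
    intro n
    induction n with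
    | zero =>
      rw [pow_zero, Nat.cast_zero, zero_mul]
      exact hA 1 (by rw [Units.val_one, sub_self, map_zero]; exact zero_lt_one)
    | succ n ih =>
      rw [pow_succ, hth, ih]
      push_cast
      ring
  set n : ℕ := ((B.th v gu)⁻¹).val with hn
  have hn1 : B.th v (gu ^ n) = 1 := by
    rw [hpow, hn, ZMod.natCast_zmod_val, inv_mul_cancel₀ hth0]
  refine ⟨g ^ n, fun h => hg (v.isPrime.mem_of_pow_mem n h), fun x hx => ?_⟩
  have hgun : ((gu ^ n : M₁ˣ) : M₁) = algebraMap K M₁ ((g ^ n : 𝓞 K) : K) := by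
    rw [Units.val_pow_eq_pow_val, hgu, Units.val_mk0, ← map_pow]
    rfl
  have hvgn : W.valuation M₁ ((gu ^ n : M₁ˣ) : M₁) = 1 := by
    rw [Units.val_pow_eq_pow_val, map_pow]
    have e : W.valuation M₁ (gu : M₁) = 1 := hvg
    rw [e, one_pow]
  have hx1 : W.valuation M₁ (((x / gu ^ n : M₁ˣ) : M₁) - 1) < 1 := by
    have e : ((x / gu ^ n : M₁ˣ) : M₁) - 1 = ((x : M₁) - ((gu ^ n : M₁ˣ) : M₁)) /
        ((gu ^ n : M₁ˣ) : M₁) := by
      rw [Units.val_div_eq_div_val]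
      have := (gu ^ n).ne_zero
      field_simp
    rw [e, map_div₀, hvgn, div_one, hgun]
    exact hx
  have h8 := hth (x / gu ^ n) (gu ^ n)
  rw [div_mul_cancel, hA _ hx1, zero_add, hn1] at h8
  exact h8

end Pool.Agent.Helper19.PP
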