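import Pool.Agent.Helper94.PP.GoalsA1

/-!
# Project PP, part A1, packet SUM
-/

set_option autoImplicit false

namespace Pool.Agent.Helper19.PP

open NumberField Module IsDedekindDomain
open Pool.Agent.Helper51.PP (RC UniB)
open Pool.Agent.Helper94.PP

section

variable {F : Type} [Field F] [NumberField F]

theorem rc_norm_le {𝔪 : Ideal (𝓞 F)} {χ : Ideal (𝓞 F) → ℂ} (h : RC 𝔪 χ) (J : Ideal (𝓞 F)) :
    ‖χ J‖ ≤ 1 := by
  by_cases h0 : J = ⊥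
  · rw [h0, h.zero, norm_zero]
    exact zero_le_one
  · by_cases h1 : J ⊔ 𝔪 = ⊤
    · exact (h.cop J h0 h1).le
    · rw [h.ncop J h0 h1, norm_zero]
      exact zero_le_one

theorem one_le_norm {J : Ideal (𝓞 F)} (h : J ≠ ⊥) : (1 : ℝ) ≤ Ideal.absNorm J := by
  have : Ideal.absNorm J ≠ 0 := by
    rw [Ne, Ideal.absNorm_eq_zero_iff]
    exact h
  exact_mod_cast Nat.pos_of_ne_zero this

theorem csum_w {ι : Type} {w : ι → ℝ} (hw : Summable fun i => |w i|) {a : ι → ℂ}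
    (ha : ∀ i, ‖a i‖ ≤ 1) : Summable fun i => a i * ((w i : ℝ) : ℂ) := by
  refine Summable.of_norm_bounded hw fun i => ?_
  rw [norm_mul, Complex.norm_real, Real.norm_eq_abs]
  exact mul_le_of_le_one_left (abs_nonneg _) (ha i)

open Classical in
theorem ext_w (χ : Ideal (𝓞 F) → ℂ) (c : Ideal (𝓞 F)) (g : 𝓞 F → ℂ) :
    ∑' α : {α : 𝓞 F // α ≠ 0}, (if α.1 ∈ c then χ (Ideal.span {α.1}) else 0) * g α.1 =
    ∑' α : {α : 𝓞 F // α ≠ 0 ∧ α ∈ c}, χ (Ideal.span {α.1}) * g α.1 := by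
  let u : 𝓞 F → ℂ := fun α => (if α ∈ c then χ (Ideal.span {α}) else 0) * g α
  have h1 : ∑' α : {α : 𝓞 F // α ≠ 0}, u α.1 = ∑' α, ({α : 𝓞 F | α ≠ 0}).indicator u α :=
    tsum_subtype {α : 𝓞 F | α ≠ 0} u
  have h2 : ∑' α : {α : 𝓞 F // α ≠ 0 ∧ α ∈ c}, u α.1 =
      ∑' α, ({α : 𝓞 F | α ≠ 0 ∧ α ∈ c}).indicator u α :=
    tsum_subtype {α : 𝓞 F | α ≠ 0 ∧ α ∈ c} u
  have h3 : ({α : 𝓞 F | α ≠ 0}).indicator u = ({α : 𝓞 F | α ≠ 0 ∧ α ∈ c}).indicator u := by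
    funext α
    by_cases hα : α ∈ c
    · by_cases h0 : α ≠ 0
      · rw [Set.indicator_of_mem (show α ∈ {α : 𝓞 F | α ≠ 0} from h0),
          Set.indicator_of_mem (show α ∈ {α : 𝓞 F | α ≠ 0 ∧ α ∈ c} from ⟨h0, hα⟩)]
      · rw [Set.indicator_of_notMem (show α ∉ {α : 𝓞 F | α ≠ 0} from h0),
          Set.indicator_of_notMem (show α ∉ {α : 𝓞 F | α ≠ 0 ∧ α ∈ c} from fun h => h0 h.1)]
    · have hu : u α = 0 := by
        show (if α ∈ c then χ (Ideal.span {α}) else 0) * g α = 0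
        rw [if_neg hα, zero_mul]
      rw [Set.indicator_of_notMem (show α ∉ {α : 𝓞 F | α ≠ 0 ∧ α ∈ c} from fun h => hα h.2)]
      by_cases h0 : α ∈ {α : 𝓞 F | α ≠ 0}
      · rw [Set.indicator_of_mem h0, hu]
      · rw [Set.indicator_of_notMem h0]
  have h4 : ∑' α : {α : 𝓞 F // α ≠ 0}, u α.1 = ∑' α : {α : 𝓞 F // α ≠ 0 ∧ α ∈ c}, u α.1 := by
    rw [h1, h2, h3]
  refine h4.trans (tsum_congr fun α => ?_)
  show (if α.1 ∈ c then χ (Ideal.span {α.1}) else 0) * g α.1 = _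
  rw [if_pos α.2.2]

theorem decomp_w {𝔪 : Ideal (𝓞 F)} {χ : Ideal (𝓞 F) → ℂ} (hχ : RC 𝔪 χ) {ι : Type} [Fintype ι]
    (c : ι → Ideal (𝓞 F)) (hc : ∀ j, c j ≠ ⊥ ∧ c j ⊔ 𝔪 = ⊤)
    (hu : ∀ J : Ideal (𝓞 F), J ≠ ⊥ → ∃! j, (J * c j).IsPrincipal) (w : ℝ → ℝ)
    (hS : Summable fun J : {J : Ideal (𝓞 F) // J ≠ ⊥} => |w (Ideal.absNorm J.1)|) :
    ∑' J : {J : Ideal (𝓞 F) // J ≠ ⊥}, χ J.1 * (w (Ideal.absNorm J.1) : ℂ) =
      ∑ j, (χ (c j))⁻¹ * ∑' J : {J : Ideal (𝓞 F) // J ≠ ⊥ ∧ J ≤ c j ∧ J.IsPrincipal},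
        χ J.1 * (w ((Ideal.absNorm J.1 : ℝ) / Ideal.absNorm (c j)) : ℂ) := by
  classical
  have hne : ∀ j, χ (c j) ≠ 0 := by
    intro j h0
    have := hχ.cop _ (hc j).1 (hc j).2
    rw [h0, norm_zero] at this
    exact zero_ne_one this
  let t : {J : Ideal (𝓞 F) // J ≠ ⊥} → ℂ := fun J => χ J.1 * (w (Ideal.absNorm J.1) : ℂ)
  have ht : Summable t := csum_w (w := fun J : {J : Ideal (𝓞 F) // J ≠ ⊥} =>
    w (Ideal.absNorm J.1)) hS (a := fun J : {J : Ideal (𝓞 F) // J ≠ ⊥} => χ J.1)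
    fun J => rc_norm_le hχ _
  let A : ι → Set {J : Ideal (𝓞 F) // J ≠ ⊥} := fun j => {J | (J.1 * c j).IsPrincipal}
  have h1 : ∀ J, t J = ∑ j, (A j).indicator t J := by
    intro J
    obtain ⟨j, hj, hju⟩ := hu J.1 J.2
    rw [Finset.sum_eq_single j]
    · rw [Set.indicator_of_mem (show J ∈ A j from hj)]
    · intro i _ hij
      rw [Set.indicator_of_notMem]
      intro hi
      exact hij (hju i hi)
    · intro hj'
      exact absurd (Finset.mem_univ _) hj'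
  have h2 : ∑' J, t J = ∑ j, ∑' J, (A j).indicator t J := by
    rw [tsum_congr h1]
    exact Summable.tsum_finsetSum (fun j _ => ht.indicator (A j))
  refine h2.trans ?_
  refine Finset.sum_congr rfl (fun j _ => ?_)
  rw [← tsum_subtype (A j) t]
  have hcj := (hc j).1
  let i : (A j) → {J : Ideal (𝓞 F) // J ≠ ⊥ ∧ J ≤ c j ∧ J.IsPrincipal} :=
    fun J => ⟨J.1.1 * c j, mul_ne_zero J.1.2 hcj, Ideal.mul_le_right, J.2⟩
  have hi : Function.Bijective i := by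
    constructor
    · intro J J' hJJ
      have h3 : J.1.1 * c j = J'.1.1 * c j := congrArg Subtype.val hJJ
      exact Subtype.ext (Subtype.ext (mul_right_cancel₀ hcj h3))
    · intro J
      obtain ⟨I, hI⟩ := Ideal.dvd_iff_le.mpr J.2.2.1
      have hI0 : I ≠ ⊥ := by
        rintro rfl
        apply J.2.1
        rw [hI, Ideal.mul_bot]
      have hI' : I * c j = J.1 := by rw [hI, mul_comm]
      refine ⟨⟨⟨I, hI0⟩, ?_⟩, Subtype.ext hI'⟩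
      show (I * c j).IsPrincipal
      rw [hI']
      exact J.2.2.2
  rw [← (Equiv.ofBijective i hi).tsum_eq, ← tsum_mul_left]
  refine tsum_congr (fun J => ?_)
  show χ J.1.1 * (w (Ideal.absNorm J.1.1) : ℂ) =
    (χ (c j))⁻¹ * (χ (J.1.1 * c j) *
      (w ((Ideal.absNorm (J.1.1 * c j) : ℝ) / Ideal.absNorm (c j)) : ℂ))
  have h4 : (Ideal.absNorm (c j) : ℝ) ≠ 0 := by
    have := one_le_norm (hc j).1
    linarith
  rw [hχ.mul, map_mul, Nat.cast_mul, mul_div_cancel_right₀ _ h4]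
  have h7 := inv_mul_cancel₀ (hne j)
  generalize (w (Ideal.absNorm J.1.1) : ℂ) = n1
  calc χ J.1.1 * n1 = χ J.1.1 * n1 * 1 := by ring
    _ = χ J.1.1 * n1 * ((χ (c j))⁻¹ * χ (c j)) := by rw [h7]
    _ = (χ (c j))⁻¹ * (χ J.1.1 * χ (c j) * n1) := by ring

end

/-- Packet SUM. -/
theorem goalSUM (h1 : A1_UNF) (h2 : A1_PAR) (h3 : A1_REP) (h4 : A1_ORT) : A1_SUM := by
  classical
  intro F _ _ _ a ha ha1
  obtain ⟨C₁, hC₁, hpar⟩ := h2 F a ha ha1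
  obtain ⟨C₂, hC₂, hrep⟩ := h3 F
  set n := finrank ℚ F with hn
  refine ⟨Fintype.card (ClassGroup (𝓞 F)) * (C₁ * (C₂ ^ 2 * C₂ ^ (n + 2))),
    2 * n + (n + 1) * (n + 2), by positivity, ?_⟩
  intro 𝔪 χ hχ hnt A w hW hS
  obtain ⟨c, hc, hu⟩ := hrep 𝔪 hχ.ne
  have hc' : ∀ j, c j ≠ ⊥ ∧ c j ⊔ 𝔪 = ⊤ := fun j => ⟨(hc j).1, (hc j).2.1⟩
  have hM := one_le_norm hχ.ne
  set M : ℝ := (Ideal.absNorm 𝔪 : ℝ) with hMd
  have hA : 0 ≤ A := by
    have h5 := (hW 1 le_rfl).bd 1 le_rfl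
    rw [Real.one_rpow, one_pow, mul_one, mul_one] at h5
    exact (abs_nonneg _).trans h5
  have hS1 : Summable fun J : {J : Ideal (𝓞 F) // J ≠ ⊥} => |w (Ideal.absNorm J.1)| := by
    have := hS 1 le_rfl
    simpa only [div_one] using this
  rw [decomp_w hχ c hc' hu w hS1]
  have key : ∀ j, ‖(χ (c j))⁻¹ *
      ∑' J : {J : Ideal (𝓞 F) // J ≠ ⊥ ∧ J ≤ c j ∧ J.IsPrincipal},
        χ J.1 * (w ((Ideal.absNorm J.1 : ℝ) / Ideal.absNorm (c j)) : ℂ)‖ ≤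
      C₁ * (C₂ ^ 2 * C₂ ^ (n + 2)) * A * M ^ (2 * n + (n + 1) * (n + 2)) := by
    intro j
    have hN := one_le_norm (hc j).1
    set N : ℝ := (Ideal.absNorm (c j) : ℝ) with hNd
    have hNle : N ≤ C₂ * M ^ n := (hc j).2.2
    rw [norm_mul, norm_inv, hχ.cop _ (hc j).1 (hc j).2.1, inv_one, one_mul]
    have hunf := (h1 F (fun x => w (x / N)) (hS N hN) χ (rc_norm_le hχ) (c j)).2
    rw [← hunf, ← ext_w χ (c j) fun α => (gw (fun x => w (x / N)) (α : F) : ℂ)]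
    obtain ⟨o1, o2⟩ := h4 F 𝔪 χ hχ hnt (c j) (hc j).1 (hc j).2.1
    have hcm : c j * 𝔪 ≠ ⊥ := mul_ne_zero (hc j).1 hχ.ne
    have hp := hpar (A * N ^ 2) (fun x => w (x / N)) (hW N hN) (hS N hN) (c j * 𝔪) hcm
      (fun α => if α ∈ c j then χ (Ideal.span {α}) else 0) (fun α => by
        show ‖if α ∈ c j then χ (Ideal.span {α}) else 0‖ ≤ 1
        split_ifs
        · exact rc_norm_le hχ _
        · rw [norm_zero]
          exact zero_le_one) o1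
    rw [o2, zero_mul, sub_zero] at hp
    refine hp.trans ?_
    rw [map_mul, Nat.cast_mul]
    have h5 : N ^ 2 ≤ (C₂ * M ^ n) ^ 2 := pow_le_pow_left₀ (by linarith) hNle 2
    have h6 : (N * M) ^ (n + 2) ≤ (C₂ * M ^ n * M) ^ (n + 2) := by
      refine pow_le_pow_left₀ (by positivity) ?_ _
      exact mul_le_mul_of_nonneg_right hNle (by linarith)
    calc C₁ * (A * N ^ 2) * (N * M) ^ (n + 2)
        ≤ C₁ * (A * (C₂ * M ^ n) ^ 2) * (C₂ * M ^ n * M) ^ (n + 2) := by gcongr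
      _ = _ := by ring
  refine (norm_sum_le _ _).trans ((Finset.sum_le_sum fun j _ => key j).trans ?_)
  rw [Finset.sum_const, Finset.card_univ, nsmul_eq_mul]
  exact le_of_eq (by ring)

end Pool.Agent.Helper19.PP
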